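import Pool.Agent.helper34.FJ3.DefsC

set_option autoImplicit false

/-!
# The modified Deligne complex: types, action and the link condition
-/

namespace Pool.Agent.helper71.FJ3

open Pool.Agent.helper34.FJ2
open Pool.Agent.helper34.FJ3
open Pool.Agent.helper36.LT (Artin gen alt artinRels)
open scoped BigOperators

variable {S : Type}

/-! ### Cosets -/

theorem dv_eq (M : CoxeterMatrix S) (T : DTy M) (g h : Artin M) :
    dv M T g = dv M T h ↔ g⁻¹ * h ∈ sgp M T.1 := by
  constructor
  · intro h1
    exact QuotientGroup.eq.1 (eq_of_heq (Sigma.mk.inj h1).2)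
  · intro h1
    exact congrArg (Sigma.mk T) (QuotientGroup.eq.2 h1)

theorem dv_ty (M : CoxeterMatrix S) {T T' : DTy M} {g h : Artin M} (e : dv M T g = dv M T' h) :
    T = T' := congrArg Sigma.fst e

theorem dv_fst (M : CoxeterMatrix S) (T : DTy M) (g : Artin M) : (dv M T g).1 = T := rfl

theorem sgp_mono (M : CoxeterMatrix S) {T T' : Finset S} (h : T ⊆ T') : sgp M T ≤ sgp M T' :=
  Subgroup.closure_mono (Set.image_mono (by exact_mod_cast h))

theorem sgp_empty (M : CoxeterMatrix S) {x : Artin M} (h : x ∈ sgp M ∅) : x = 1 := by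
  simpa [sgp] using h

theorem sgp_single (M : CoxeterMatrix S) {s : S} {x : Artin M} (h : x ∈ sgp M {s}) :
    ∃ e : ℤ, gen M s ^ e = x := by
  have h1 : x ∈ Subgroup.closure {gen M s} := by simpa [sgp] using h
  exact Subgroup.mem_closure_singleton.1 h1

/-! ### Types -/

theorem deligne_typed (M : CoxeterMatrix S) : Typed (deligne M) (fun v => v.1) := by
  constructor
  · rintro a b ⟨g, T, T', h, rfl, rfl⟩ h1
    have h2 : T = T' := h1
    subst h2
    exact h.elim (ssubset_irrefl _) (ssubset_irrefl _)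
  · have key : ∀ (g : Artin M) (T T' : DTy M), T.1 ⊂ T'.1 → ∀ c, (deligne M).edge (dv M T g) c →
        c.1 = T' → c = dv M T' g := by
      rintro g T T' h c ⟨g', T1, T2, h', e1, rfl⟩ hc
      have h2 : T2 = T' := hc
      subst h2
      have h3 : T = T1 := dv_ty M e1
      subst h3
      rw [dv_eq] at e1 ⊢
      have := inv_mem (sgp_mono M h.1 e1)
      simpa using this
    rintro a b ⟨g, T, T', h | h, rfl, rfl⟩
    · exact Or.inl fun c hc hc' => key g T T' h c hc hc'
    · exact Or.inr fun c hc hc' => key g T' T h c hc hc'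

theorem dlen_smul (M : CoxeterMatrix S) (g : Artin M) (a b : DV M) :
    dlen M (g • a) (g • b) = dlen M a b := rfl

theorem deligne_acts (M : CoxeterMatrix S) :
    Acts (Artin M) (deligne M) (dlen M) (fun v => v.1) := by
  constructor
  · rintro g a b ⟨h, T, T', hT, rfl, rfl⟩
    exact ⟨g * h, T, T', hT, rfl, rfl⟩
  · rintro g a b c ⟨h, T, T', T'', h1, h2, h3, rfl, rfl, rfl⟩
    exact ⟨g * h, T, T', T'', h1, h2, h3, rfl, rfl, rfl⟩
  · intro g a b _
    rfl
  · intro g a
    rfl

/-! ### Labels -/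

theorem lab_small (M : CoxeterMatrix S) {T : Finset S} (h : T.card ≤ 1) : lab M T = 0 := by
  classical
  have h1 := Finset.card_le_one.1 h
  refine Nat.le_zero.1 (Finset.sup_le fun s hs => Finset.sup_le fun t ht => ?_)
  rw [if_pos (h1 s hs t ht)]

theorem lab_pair (M : CoxeterMatrix S) {T : Finset S} {s t : S} (h : s ≠ t)
    (hT : ∀ x, x ∈ T ↔ x = s ∨ x = t) : lab M T = M.M s t := by
  classical
  apply le_antisymm
  · refine Finset.sup_le fun x hx => Finset.sup_le fun y hy => ?_
    rcases (hT x).1 hx with rfl | rfl <;> rcases (hT y).1 hy with rfl | rfl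
    · simp
    · rw [if_neg h]
    · rw [if_neg h.symm, M.symmetric]
    · simp
  · have h1 : s ∈ T := (hT s).2 (Or.inl rfl)
    have h2 : t ∈ T := (hT t).2 (Or.inr rfl)
    refine le_trans ?_ (Finset.le_sup (f := fun s => T.sup fun t =>
      if s = t then 0 else M.M s t) h1)
    refine le_trans ?_ (Finset.le_sup (f := fun t => if s = t then 0 else M.M s t) h2)
    rw [if_neg h]

theorem two_le (M : CoxeterMatrix S) {s t : S} (h : s ≠ t) (h0 : M.M s t ≠ 0) : 2 ≤ M.M s t := by
  have h1 := M.off_diagonal s t h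
  omega

theorem lab_two (M : CoxeterMatrix S) (T : DTy M) (h : T.1.card = 2) : 2 ≤ lab M T.1 := by
  classical
  obtain ⟨s, t, hst, e⟩ := Finset.card_eq_two.1 h
  have hT : ∀ x, x ∈ T.1 ↔ x = s ∨ x = t := by
    intro x
    rw [e]
    simp
  rw [lab_pair M hst hT]
  exact two_le M hst (T.2.2 s ((hT s).2 (Or.inl rfl)) t ((hT t).2 (Or.inr rfl)))

/-- the angle at a vertex whose type has two elements -/
noncomputable def al (M : CoxeterMatrix S) (u : DV M) : ℝ := Real.pi / (2 * (lab M u.1.1 : ℕ))

theorem al_pos (M : CoxeterMatrix S) (u : DV M) (h : u.1.1.card = 2) : 0 < al M u := by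
  have h1 := lab_two M u.1 h
  have h2 : (2 : ℝ) ≤ (lab M u.1.1 : ℕ) := by exact_mod_cast h1
  unfold al
  have := Real.pi_pos
  positivity

theorem al_lt (M : CoxeterMatrix S) (u : DV M) (h : u.1.1.card = 2) : al M u < Real.pi / 2 := by
  have h1 := lab_two M u.1 h
  have h2 : (2 : ℝ) ≤ (lab M u.1.1 : ℕ) := by exact_mod_cast h1
  unfold al
  have := Real.pi_pos
  rw [div_lt_div_iff₀ (by positivity) (by norm_num)]
  nlinarith

theorem dlen_symm (M : CoxeterMatrix S) (u v : DV M) : dlen M u v = dlen M v u := by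
  unfold dlen dang
  rw [add_comm u.1.1.card, max_comm]

theorem dang_eq (M : CoxeterMatrix S) (u v : DV M) (hu : u.1.1.card ≤ 1) :
    dang M u.1.1 v.1.1 = al M v := by
  unfold dang al
  rw [lab_small M hu]
  simp

theorem dlen01 (M : CoxeterMatrix S) (u v : DV M) (h : u.1.1.card + v.1.1.card = 1) :
    dlen M u v = 1 := by
  unfold dlen
  rw [if_neg (by omega), if_neg (by omega)]

theorem dlen02 (M : CoxeterMatrix S) (u v : DV M) (h : u.1.1.card = 0) (h' : v.1.1.card = 2) :
    dlen M u v = 1 / Real.sin (al M v) := by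
  unfold dlen
  rw [if_neg (by omega), if_pos (by omega), dang_eq M u v (by omega)]

theorem dlen12 (M : CoxeterMatrix S) (u v : DV M) (h : u.1.1.card = 1) (h' : v.1.1.card = 2) :
    dlen M u v = Real.cos (al M v) / Real.sin (al M v) := by
  unfold dlen
  rw [if_pos (by omega), dang_eq M u v (by omega)]

theorem trig (M : CoxeterMatrix S) (u : DV M) (h : u.1.1.card = 2) :
    0 < Real.sin (al M u) ∧ 0 < Real.cos (al M u) ∧
      Real.sin (al M u) ^ 2 + Real.cos (al M u) ^ 2 = 1 := by
  have h1 := al_pos M u h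
  have h2 := al_lt M u h
  have h3 := Real.pi_pos
  refine ⟨Real.sin_pos_of_pos_of_lt_pi h1 (by linarith), Real.cos_pos_of_mem_Ioo ⟨by linarith, h2⟩,
    Real.sin_sq_add_cos_sq _⟩

/-! ### Corners -/

theorem corner_symm {V : Type} (len : V → V → ℝ) (h : ∀ a b, len a b = len b a) (a b c : V) :
    corner len a b c = corner len a c b := by
  unfold corner
  rw [h b c]
  congr 1
  ring

theorem corner_mid' (M : CoxeterMatrix S) (u v w : DV M) (hu : u.1.1.card = 1)
    (hv : v.1.1.card = 0) (hw : w.1.1.card = 2) : corner (dlen M) u v w = Real.pi / 2 := by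
  obtain ⟨h1, h2, h3⟩ := trig M w hw
  unfold corner
  rw [dlen01 M u v (by omega), dlen12 M u w hu hw, dlen02 M v w hv hw]
  rw [← Real.arccos_zero]
  congr 1
  field_simp
  rw [mul_zero]
  linarith

theorem corner_mid (M : CoxeterMatrix S) (u v w : DV M) (hu : u.1.1.card = 1)
    (h : (v.1.1.card = 0 ∧ w.1.1.card = 2) ∨ (v.1.1.card = 2 ∧ w.1.1.card = 0)) :
    corner (dlen M) u v w = Real.pi / 2 := by
  rcases h with ⟨h1, h2⟩ | ⟨h1, h2⟩
  · exact corner_mid' M u v w hu h1 h2
  · rw [corner_symm _ (dlen_symm M)]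
    exact corner_mid' M u w v hu h2 h1

theorem corner_top' (M : CoxeterMatrix S) (u v w : DV M) (hu : u.1.1.card = 2)
    (hv : v.1.1.card = 0) (hw : w.1.1.card = 1) : corner (dlen M) u v w = al M u := by
  obtain ⟨h1, h2, h3⟩ := trig M u hu
  have h4 := al_pos M u hu
  have h5 := al_lt M u hu
  have h6 := Real.pi_pos
  unfold corner
  rw [dlen_symm M u v, dlen_symm M u w, dlen01 M v w (by omega), dlen02 M v u hv hu,
    dlen12 M w u hw hu]
  have e : ((1 / Real.sin (al M u)) ^ 2 + (Real.cos (al M u) / Real.sin (al M u)) ^ 2 - 1 ^ 2) /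
      (2 * (1 / Real.sin (al M u)) * (Real.cos (al M u) / Real.sin (al M u))) =
      Real.cos (al M u) := by
    field_simp
    nlinarith
  rw [e, Real.arccos_cos (by linarith) (by linarith)]

theorem corner_top (M : CoxeterMatrix S) (u v w : DV M) (hu : u.1.1.card = 2)
    (h : (v.1.1.card = 0 ∧ w.1.1.card = 1) ∨ (v.1.1.card = 1 ∧ w.1.1.card = 0)) :
    corner (dlen M) u v w = al M u := by
  rcases h with ⟨h1, h2⟩ | ⟨h1, h2⟩
  · exact corner_top' M u v w hu h1 h2
  · rw [corner_symm _ (dlen_symm M)]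
    exact corner_top' M u w v hu h2 h1

theorem corner_bot (M : CoxeterMatrix S) (u v w : DV M) (hu : u.1.1.card = 0)
    (hv : v.1.1.card = 1) (hw : w.1.1.card = 2) :
    corner (dlen M) u v w = Real.pi / 2 - al M w := by
  obtain ⟨h1, h2, h3⟩ := trig M w hw
  have h4 := al_pos M w hw
  have h5 := al_lt M w hw
  have h6 := Real.pi_pos
  unfold corner
  rw [dlen01 M u v (by omega), dlen02 M u w hu hw, dlen12 M v w hv hw]
  have e : (1 ^ 2 + (1 / Real.sin (al M w)) ^ 2 - (Real.cos (al M w) / Real.sin (al M w)) ^ 2) /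
      (2 * 1 * (1 / Real.sin (al M w))) = Real.cos (Real.pi / 2 - al M w) := by
    rw [Real.cos_pi_div_two_sub]
    field_simp
    nlinarith
  rw [e, Real.arccos_cos (by linarith) (by linarith)]

/-! ### Triangles -/

theorem cmp_ne {M : CoxeterMatrix S} {T T' : DTy M} (h : DCmp T T') :
    T.1.card ≠ T'.1.card := by
  rcases h with h | h
  · exact (Finset.card_lt_card h).ne
  · exact (Finset.card_lt_card h).ne'

theorem cmp_ssub {M : CoxeterMatrix S} {T T' : DTy M} (h : DCmp T T')
    (h' : T.1.card < T'.1.card) : T.1 ⊂ T'.1 := by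
  rcases h with h | h
  · exact h
  · exact absurd (Finset.card_lt_card h) (by omega)

theorem edge_card (M : CoxeterMatrix S) {u v : DV M} (h : (deligne M).edge u v) :
    u.1.1.card ≤ 2 ∧ v.1.1.card ≤ 2 ∧ u.1.1.card ≠ v.1.1.card := by
  obtain ⟨g, T, T', h1, rfl, rfl⟩ := h
  exact ⟨T.2.1, T'.2.1, cmp_ne h1⟩

theorem tri_card (M : CoxeterMatrix S) {u v w : DV M} (h : (deligne M).tri u v w) :
    u.1.1.card ≤ 2 ∧ v.1.1.card ≤ 2 ∧ w.1.1.card ≤ 2 ∧ u.1.1.card ≠ v.1.1.card ∧
      v.1.1.card ≠ w.1.1.card ∧ u.1.1.card ≠ w.1.1.card := by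
  obtain ⟨g, T, T', T'', h1, h2, h3, rfl, rfl, rfl⟩ := h
  exact ⟨T.2.1, T'.2.1, T''.2.1, cmp_ne h1, cmp_ne h2, cmp_ne h3⟩

theorem dlen_pos (M : CoxeterMatrix S) (u v : DV M) (h : (deligne M).edge u v) :
    0 < dlen M u v := by
  obtain ⟨h1, h2, h3⟩ := edge_card M h
  have key : ∀ u v : DV M, u.1.1.card < v.1.1.card → v.1.1.card ≤ 2 → 0 < dlen M u v := by
    intro u v h4 h5
    have h6 : u.1.1.card + v.1.1.card = 1 ∨ (u.1.1.card = 0 ∧ v.1.1.card = 2) ∨
        (u.1.1.card = 1 ∧ v.1.1.card = 2) := by omega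
    rcases h6 with h6 | ⟨h6, h7⟩ | ⟨h6, h7⟩
    · rw [dlen01 M u v h6]
      norm_num
    · obtain ⟨h8, h9, h10⟩ := trig M v h7
      rw [dlen02 M u v h6 h7]
      positivity
    · obtain ⟨h8, h9, h10⟩ := trig M v h7
      rw [dlen12 M u v h6 h7]
      positivity
  rcases lt_or_gt_of_ne h3 with h4 | h4
  · exact key u v h4 h2
  · rw [dlen_symm]
    exact key v u h4 h1

theorem dlen_tri (M : CoxeterMatrix S) (u v w : DV M) (h : (deligne M).tri u v w) :
    dlen M u w < dlen M u v + dlen M v w := by
  obtain ⟨h1, h2, h3, h4, h5, h6⟩ := tri_card M h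
  have key : ∀ a b c : DV M, a.1.1.card = 0 → b.1.1.card = 1 → c.1.1.card = 2 →
      dlen M a b < dlen M b c + dlen M a c ∧ dlen M b c < dlen M a b + dlen M a c ∧
        dlen M a c < dlen M a b + dlen M b c := by
    intro a b c ha hb hc
    obtain ⟨h8, h9, h10⟩ := trig M c hc
    rw [dlen01 M a b (by omega), dlen12 M b c hb hc, dlen02 M a c ha hc]
    refine ⟨?_, ?_, ?_⟩
    · rw [← add_div, lt_div_iff₀ h8]
      nlinarith
    · rw [div_lt_iff₀ h8, add_mul, div_mul_cancel₀ _ h8.ne']
      nlinarith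
    · rw [div_lt_iff₀ h8, add_mul, div_mul_cancel₀ _ h8.ne']
      nlinarith
  have h7 : (u.1.1.card = 0 ∧ v.1.1.card = 1 ∧ w.1.1.card = 2) ∨
      (u.1.1.card = 0 ∧ v.1.1.card = 2 ∧ w.1.1.card = 1) ∨
      (u.1.1.card = 1 ∧ v.1.1.card = 0 ∧ w.1.1.card = 2) ∨
      (u.1.1.card = 1 ∧ v.1.1.card = 2 ∧ w.1.1.card = 0) ∨
      (u.1.1.card = 2 ∧ v.1.1.card = 0 ∧ w.1.1.card = 1) ∨
      (u.1.1.card = 2 ∧ v.1.1.card = 1 ∧ w.1.1.card = 0) := by omega
  rcases h7 with ⟨a, b, c⟩ | ⟨a, b, c⟩ | ⟨a, b, c⟩ | ⟨a, b, c⟩ | ⟨a, b, c⟩ | ⟨a, b, c⟩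
  · exact (key u v w a b c).2.2
  · have := (key u w v a c b).1
    rw [dlen_symm M w v] at this
    linarith
  · have := (key v u w b a c).2.1
    rw [dlen_symm M v u] at this
    linarith
  · have := (key w u v c a b).1
    rw [dlen_symm M w u, dlen_symm M w v] at this
    linarith
  · have := (key v w u b c a).2.1
    rw [dlen_symm M w u, dlen_symm M v u] at this
    linarith
  · have := (key w v u c b a).2.2
    rw [dlen_symm M w u, dlen_symm M w v, dlen_symm M v u] at this
    linarith

/-! ### Periodic paths -/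

theorem link_periodic {V : Type} (X : Complex2 V) (len : V → V → ℝ) (a : V) (P : V → Prop)
    (hP : ∀ b c, X.tri a b c → ¬ P b → P c)
    (h : ∀ (n : ℕ) (b : ℕ → V), 3 ≤ n → (∀ i, b (i + n) = b i) →
      (∀ i j, b i = b j → i ≡ j [MOD n]) → (∀ i, X.tri a (b i) (b (i + 1))) → P (b 0) →
      2 * Real.pi ≤ ∑ i ∈ Finset.range n, corner len a (b i) (b (i + 1)))
    (n : ℕ) (b : ℕ → V) (hn : 3 ≤ n) (hb : b n = b 0)
    (hinj : ∀ i j, i < n → j < n → b i = b j → i = j)
    (htri : ∀ i, i < n → X.tri a (b i) (b (i + 1))) :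
    2 * Real.pi ≤ ∑ i ∈ Finset.range n, corner len a (b i) (b (i + 1)) := by
  have hn0 : 0 < n := by omega
  set b' : ℕ → V := fun i => b (i % n) with hb'
  have e1 : ∀ i, b' (i + n) = b' i := by
    intro i
    simp [hb']
  have e2 : ∀ i j, b' i = b' j → i ≡ j [MOD n] := by
    intro i j hij
    exact hinj _ _ (Nat.mod_lt _ hn0) (Nat.mod_lt _ hn0) hij
  have e3 : ∀ i, i < n → b' i = b i := by
    intro i hi
    simp [hb', Nat.mod_eq_of_lt hi]
  have e4 : ∀ i, i < n → b' (i + 1) = b (i + 1) := by
    intro i hi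
    rcases Nat.lt_or_ge (i + 1) n with h1 | h1
    · exact e3 _ h1
    · have h2 : i + 1 = n := by omega
      rw [h2, hb]
      simp [hb']
  have e5 : ∀ i, X.tri a (b' i) (b' (i + 1)) := by
    intro i
    have h1 : b' (i + 1) = b' (i % n + 1) := by
      simp [hb', Nat.add_mod]
    have h2 : b' i = b' (i % n) := by
      simp [hb']
    rw [h1, h2, e3 _ (Nat.mod_lt _ hn0), e4 _ (Nat.mod_lt _ hn0)]
    exact htri _ (Nat.mod_lt _ hn0)
  have e6 : ∑ i ∈ Finset.range n, corner len a (b i) (b (i + 1)) =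
      ∑ i ∈ Finset.range n, corner len a (b' i) (b' (i + 1)) := by
    refine Finset.sum_congr rfl fun i hi => ?_
    rw [e3 i (Finset.mem_range.1 hi), e4 i (Finset.mem_range.1 hi)]
  rw [e6]
  by_cases h0 : P (b' 0)
  · exact h n b' hn e1 e2 e5 h0
  · have h1 := hP _ _ (e5 0) h0
    have h2 := h n (fun i => b' (i + 1)) hn (fun i => by
        show b' (i + n + 1) = b' (i + 1)
        rw [← e1 (i + 1)]
        congr 1
        ring) (fun i j hij => Nat.ModEq.add_right_cancel' 1 (e2 _ _ hij))
      (fun i => e5 (i + 1)) h1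
    refine h2.trans (le_of_eq ?_)
    have h3 := Finset.sum_range_succ (fun i => corner len a (b' i) (b' (i + 1))) n
    have h4 := Finset.sum_range_succ' (fun i => corner len a (b' i) (b' (i + 1))) n
    have h5 : corner len a (b' n) (b' (n + 1)) = corner len a (b' 0) (b' (0 + 1)) := by
      have h6 : b' n = b' 0 := by simpa using e1 0
      have h7 : b' (n + 1) = b' (0 + 1) := by
        have := e1 1
        rw [add_comm] at this
        simpa using this
      rw [h6, h7]
    linarith

theorem mod_two {n i j : ℕ} (hn : 3 ≤ n) (hj : j = i + 2) : ¬ i ≡ j [MOD n] := by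
  subst hj
  intro h
  have h1 : (n : ℤ) ∣ ((i + 2 : ℕ) : ℤ) - (i : ℤ) := h.dvd
  have h2 : (n : ℤ) ∣ 2 := by
    push_cast at h1
    simpa using h1
  have h3 := Int.le_of_dvd (by norm_num) h2
  omega

theorem sum_even (f : ℕ → ℝ) (k : ℕ) :
    ∑ i ∈ Finset.range (2 * k), f i = ∑ i ∈ Finset.range k, (f (2 * i) + f (2 * i + 1)) := by
  induction k with
  | zero => simp
  | succ k ih =>
    rw [Finset.sum_range_succ, ← ih, mul_add, mul_one, Finset.sum_range_succ,
      Finset.sum_range_succ]
    ring

/-- the types of the vertices of a periodic alternating path -/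
theorem alternate (b : ℕ → ℕ) (x y : ℕ) (hxy : x ≠ y) (n : ℕ) (hn : b n = b 0)
    (h : ∀ i, (b i = x ∧ b (i + 1) = y) ∨ (b i = y ∧ b (i + 1) = x)) (h0 : b 0 = x) :
    (∀ i, b (2 * i) = x) ∧ (∀ i, b (2 * i + 1) = y) ∧ ∃ k, n = 2 * k := by
  have h1 : ∀ i, b (2 * i) = x := by
    intro i
    induction i with
    | zero => exact h0
    | succ i ih =>
      have h2 : b (2 * i + 1) = y := by
        rcases h (2 * i) with h3 | h3
        · exact h3.2
        · exact absurd (ih.symm.trans h3.1) hxy
      rcases h (2 * i + 1) with h3 | h3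
      · exact absurd (h3.1.symm.trans h2) hxy
      · exact h3.2
  have h2 : ∀ i, b (2 * i + 1) = y := by
    intro i
    rcases h (2 * i) with h3 | h3
    · exact h3.2
    · exact absurd ((h1 i).symm.trans h3.1) hxy
  refine ⟨h1, h2, ?_⟩
  rcases Nat.even_or_odd' n with ⟨k, hk | hk⟩
  · exact ⟨k, hk⟩
  · exfalso
    subst hk
    exact hxy (h0.symm.trans (hn.symm.trans (h2 k)))

/-! ### Links of vertices of type `s` -/

theorem link_one (M : CoxeterMatrix S) (a : DV M) (ha : a.1.1.card = 1)
    (n : ℕ) (b : ℕ → DV M) (hn : 3 ≤ n) (hb : b n = b 0)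
    (hinj : ∀ i j, i < n → j < n → b i = b j → i = j)
    (htri : ∀ i, i < n → (deligne M).tri a (b i) (b (i + 1))) :
    2 * Real.pi ≤ ∑ i ∈ Finset.range n, corner (dlen M) a (b i) (b (i + 1)) := by
  refine link_periodic (deligne M) (dlen M) a (fun v => v.1.1.card = 0) ?_ ?_ n b hn hb hinj htri
  · intro b c h h1
    have h2 := tri_card M h
    omega
  · intro n b hn hper hinj htri h0
    have h1 : ∀ i, ((b i).1.1.card = 0 ∧ (b (i + 1)).1.1.card = 2) ∨
        ((b i).1.1.card = 2 ∧ (b (i + 1)).1.1.card = 0) := by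
      intro i
      have := tri_card M (htri i)
      omega
    obtain ⟨-, -, k, hk⟩ := alternate (fun i => (b i).1.1.card) 0 2 (by norm_num) n
      (by have := hper 0; rw [zero_add] at this; simp only [this]) h1 h0
    have h2 : ∀ i, corner (dlen M) a (b i) (b (i + 1)) = Real.pi / 2 := by
      intro i
      exact corner_mid M a _ _ ha (h1 i)
    simp only [h2, Finset.sum_const, Finset.card_range, nsmul_eq_mul]
    have h3 : (4 : ℝ) ≤ n := by
      have : 4 ≤ n := by omega
      exact_mod_cast this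
    have := Real.pi_pos
    nlinarith

/-! ### Links of vertices of type `∅` -/

theorem dv_empty (M : CoxeterMatrix S) {T : DTy M} (hT : T.1.card = 0) {g h : Artin M}
    (e : dv M T g = dv M T h) : g = h := by
  rw [dv_eq, Finset.card_eq_zero.1 hT] at e
  have := sgp_empty M e
  exact (inv_mul_eq_one.1 this)

theorem link_zero (M : CoxeterMatrix S) (hM : TwoDim M) (a : DV M) (ha : a.1.1.card = 0)
    (n : ℕ) (b : ℕ → DV M) (hn : 3 ≤ n) (hb : b n = b 0)
    (hinj : ∀ i j, i < n → j < n → b i = b j → i = j)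
    (htri : ∀ i, i < n → (deligne M).tri a (b i) (b (i + 1))) :
    2 * Real.pi ≤ ∑ i ∈ Finset.range n, corner (dlen M) a (b i) (b (i + 1)) := by
  refine link_periodic (deligne M) (dlen M) a (fun v => v.1.1.card = 1) ?_ ?_ n b hn hb hinj htri
  · intro b c h h1
    have h2 := tri_card M h
    omega
  · clear hinj htri hb hn
    clear b n
    intro n b hn hper hinj htri h0
    have h1 : ∀ i, ((b i).1.1.card = 1 ∧ (b (i + 1)).1.1.card = 2) ∨
        ((b i).1.1.card = 2 ∧ (b (i + 1)).1.1.card = 1) := by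
      intro i
      have := tri_card M (htri i)
      omega
    obtain ⟨c1, c2, k, hk⟩ := alternate (fun i => (b i).1.1.card) 1 2 (by norm_num) n
      (by have := hper 0; rw [zero_add] at this; simp only [this]) h1 h0
    -- all the vertices are determined by their types
    obtain ⟨g0, Ta, hg0⟩ : ∃ (g0 : Artin M) (Ta : DTy M), a = dv M Ta g0 := by
      obtain ⟨g, T, T', T'', -, -, -, e, -, -⟩ := htri 0
      exact ⟨g, T, e⟩
    have hTa : Ta.1.card = 0 := by
      rw [hg0] at ha
      exact ha
    have h2 : ∀ i, b i = dv M (b i).1 g0 := by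
      intro i
      obtain ⟨g, T, T', T'', -, -, -, e1, e2, e3⟩ := htri i
      rw [hg0] at e1
      have e4 : Ta = T := dv_ty M e1
      subst e4
      have e5 := dv_empty M hTa e1
      subst e5
      rw [e2]
      rfl
    have h3 : ∀ i, DCmp (b i).1 (b (i + 1)).1 := by
      intro i
      obtain ⟨g, T, T', T'', -, h, -, e1, e2, e3⟩ := htri i
      rw [e2, e3]
      exact h
    have h4 : ∀ i j, (b i).1.1 = (b j).1.1 → i ≡ j [MOD n] := by
      intro i j hij
      apply hinj
      rw [h2 i, h2 j]
      have : (b i).1 = (b j).1 := Subtype.ext hij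
      rw [this]
    have h5 : ∀ i, ∃ s, (b (2 * i)).1.1 = {s} := fun i => Finset.card_eq_one.1 (c1 i)
    choose s hs using h5
    have h6 : ∀ i, s i ≠ s (i + 1) := by
      intro i hi
      have : (b (2 * i)).1.1 = (b (2 * (i + 1))).1.1 := by rw [hs, hs, hi]
      exact mod_two hn (by ring) (h4 _ _ this)
    have h7 : ∀ i x, x ∈ (b (2 * i + 1)).1.1 ↔ x = s i ∨ x = s (i + 1) := by
      intro i x
      have e1 : s i ∈ (b (2 * i + 1)).1.1 := by
        have := (cmp_ssub (h3 (2 * i)) (by rw [c1, c2]; norm_num)).1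
        rw [hs] at this
        exact this (Finset.mem_singleton_self _)
      have e2 : s (i + 1) ∈ (b (2 * i + 1)).1.1 := by
        have := (cmp_ssub (T := (b (2 * (i + 1))).1) (T' := (b (2 * i + 1)).1)
          (DCmp.symm (h3 (2 * i + 1))) (by rw [c1, c2]; norm_num)).1
        rw [hs] at this
        exact this (Finset.mem_singleton_self _)
      constructor
      · intro hx
        by_contra hc
        push Not at hc
        classical
        have e3 : ({x, s i, s (i + 1)} : Finset S) ⊆ (b (2 * i + 1)).1.1 := by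
          intro y hy
          simp only [Finset.mem_insert, Finset.mem_singleton] at hy
          rcases hy with rfl | rfl | rfl
          exacts [hx, e1, e2]
        have e4 := Finset.card_le_card e3
        rw [c2, Finset.card_eq_three.2 ⟨x, s i, s (i + 1), hc.1, hc.2, h6 i, rfl⟩] at e4
        omega
      · rintro (rfl | rfl)
        exacts [e1, e2]
    set m : ℕ → ℕ := fun i => M.M (s i) (s (i + 1)) with hm
    have h8 : ∀ i, m i ≠ 0 := fun i =>
      (b (2 * i + 1)).1.2.2 _ ((h7 i _).2 (Or.inl rfl)) _ ((h7 i _).2 (Or.inr rfl))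
    have h9 : ∀ i, 2 ≤ m i := fun i => two_le M (h6 i) (h8 i)
    have h10 : ∀ i, al M (b (2 * i + 1)) = Real.pi / (2 * m i) := by
      intro i
      unfold al
      rw [lab_pair M (h6 i) (h7 i)]
    have h11 : ∀ i, corner (dlen M) a (b (2 * i)) (b (2 * i + 1)) +
        corner (dlen M) a (b (2 * i + 1)) (b (2 * i + 1 + 1)) = Real.pi - Real.pi / m i := by
      intro i
      have c3 : (b (2 * i + 1 + 1)).1.1.card = 1 := c1 (i + 1)
      rw [corner_bot M a _ _ ha (c1 i) (c2 i), corner_symm _ (dlen_symm M) a (b (2 * i + 1)),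
        corner_bot M a _ _ ha c3 (c2 i), h10]
      have : (m i : ℝ) ≠ 0 := by exact_mod_cast h8 i
      field_simp
      ring
    subst hk
    rw [sum_even, Finset.sum_congr rfl (fun i _ => h11 i)]
    have hpi := Real.pi_pos
    have h12 : ∀ i, Real.pi / 2 ≤ Real.pi - Real.pi / m i := by
      intro i
      have e1 : (2 : ℝ) ≤ m i := by exact_mod_cast h9 i
      have e2 : Real.pi / m i ≤ Real.pi / 2 := div_le_div_of_nonneg_left hpi.le (by norm_num) e1
      linarith
    have h13 : b (2 * k) = b 0 := by simpa using hper 0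
    have h14 : s k = s 0 := by
      have := hs k
      rw [h13] at this
      have h' := hs 0
      rw [mul_zero, this] at h'
      exact Finset.singleton_injective h'
    have hk2 : k ≠ 2 := by
      rintro rfl
      have e1 : (b 1).1.1 = (b 3).1.1 := by
        ext x
        have e2 := h7 0 x
        have e3 := h7 1 x
        norm_num at e2 e3
        rw [e2, e3, h14]
        tauto
      have e4 := h4 _ _ e1
      exact mod_two hn (by norm_num) e4
    rcases Nat.lt_or_ge k 4 with hk | hk
    · have hk3 : k = 3 := by omega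
      subst hk3
      have d1 : s 0 ≠ s 2 := by
        intro e
        have e1 : (b (2 * 2)).1.1 = (b (2 * 3)).1.1 := by
          rw [hs, hs, h14, e]
        exact mod_two hn (by norm_num) (h4 _ _ e1)
      have d2 := hM (s 0) (s 1) (s 2) (h6 0) (h6 1) d1 (h8 0) (h8 1) (by
        have := h8 2
        simp only [hm] at this
        rw [M.symmetric]
        rwa [show s (2 + 1) = s 0 from h14] at this)
      have d3 : m 2 = M.M (s 0) (s 2) := by
        simp only [hm]
        rw [show s (2 + 1) = s 0 from h14, M.symmetric]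
      have d4 : (1 : ℝ) / (m 0 : ℝ) + 1 / (m 1 : ℝ) + 1 / (m 2 : ℝ) ≤ 1 := by
        rw [d3]
        have d6 := (Rat.cast_le (K := ℝ)).2 d2
        push_cast at d6
        exact d6
      rw [Finset.sum_range_succ, Finset.sum_range_succ, Finset.sum_range_succ,
        Finset.sum_range_zero]
      have d5 : ∀ i, Real.pi / m i = Real.pi * (1 / (m i : ℝ)) := by
        intro i
        ring
      rw [d5, d5, d5]
      nlinarith
    · have d1 : ∑ i ∈ Finset.range k, Real.pi / 2 ≤
          ∑ i ∈ Finset.range k, (Real.pi - Real.pi / m i) :=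
        Finset.sum_le_sum fun i _ => h12 i
      rw [Finset.sum_const, Finset.card_range, nsmul_eq_mul] at d1
      have d2 : (4 : ℝ) ≤ k := by exact_mod_cast hk
      nlinarith

/-! ### Links of vertices of type `s, t` -/

/-- the empty type -/
def tEmp (M : CoxeterMatrix S) : DTy M := ⟨∅, by simp, by simp⟩

/-- a one-element type -/
def tSing (M : CoxeterMatrix S) (s : S) : DTy M :=
  ⟨{s}, by simp, by
    intro x hx y hy
    rw [Finset.mem_singleton] at hx hy
    subst hx
    subst hy
    rw [M.diagonal]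
    exact one_ne_zero⟩

theorem eq_tEmp (M : CoxeterMatrix S) {T : DTy M} (h : T.1.card = 0) : T = tEmp M :=
  Subtype.ext (Finset.card_eq_zero.1 h)

theorem eq_tSing (M : CoxeterMatrix S) {T : DTy M} (h : T.1.card = 1) :
    ∃ s ∈ T.1, T = tSing M s := by
  obtain ⟨s, hs⟩ := Finset.card_eq_one.1 h
  refine ⟨s, ?_, Subtype.ext hs⟩
  rw [hs]
  exact Finset.mem_singleton_self _

theorem tSing_inj (M : CoxeterMatrix S) {s t : S} (h : tSing M s = tSing M t) : s = t :=
  Finset.singleton_injective (congrArg Subtype.val h)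

theorem link_two (M : CoxeterMatrix S) (hg : Girth M) (a : DV M) (ha : a.1.1.card = 2)
    (n : ℕ) (b : ℕ → DV M) (hn : 3 ≤ n) (hb : b n = b 0)
    (hinj : ∀ i j, i < n → j < n → b i = b j → i = j)
    (htri : ∀ i, i < n → (deligne M).tri a (b i) (b (i + 1))) :
    2 * Real.pi ≤ ∑ i ∈ Finset.range n, corner (dlen M) a (b i) (b (i + 1)) := by
  refine link_periodic (deligne M) (dlen M) a (fun v => v.1.1.card = 0) ?_ ?_ n b hn hb hinj htri
  · intro b c h h1
    have h2 := tri_card M h
    omega
  · clear hinj htri hb hn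
    clear b n
    intro n b hn hper hinj htri h0
    have h1 : ∀ i, ((b i).1.1.card = 0 ∧ (b (i + 1)).1.1.card = 1) ∨
        ((b i).1.1.card = 1 ∧ (b (i + 1)).1.1.card = 0) := by
      intro i
      have := tri_card M (htri i)
      omega
    obtain ⟨c1, c2, k, hk⟩ := alternate (fun i => (b i).1.1.card) 0 1 (by norm_num) n
      (by have := hper 0; rw [zero_add] at this; simp only [this]) h1 h0
    have h2 : ∀ i, ∃ g, b (2 * i) = dv M (tEmp M) g := by
      intro i
      obtain ⟨g, T, T', T'', -, -, -, e1, e2, e3⟩ := htri (2 * i)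
      refine ⟨g, ?_⟩
      have e4 : T'.1.card = 0 := by
        have := c1 i
        rw [e2] at this
        exact this
      rw [e2, eq_tEmp M e4]
    choose h hh using h2
    have hEmp : ∀ g g' : Artin M, dv M (tEmp M) g = dv M (tEmp M) g' → g = g' :=
      fun g g' e => dv_empty M (by rfl) e
    have h3 : ∀ i, ∃ s ∈ a.1.1, b (2 * i + 1) = dv M (tSing M s) (h i) := by
      intro i
      obtain ⟨g, T, T', T'', -, -, e0, e1, e2, e3⟩ := htri (2 * i)
      have e4 : T'.1.card = 0 := by
        have := c1 i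
        rw [e2] at this
        exact this
      have e5 : T''.1.card = 1 := by
        have := c2 i
        rw [e3] at this
        exact this
      obtain ⟨s, hs, e6⟩ := eq_tSing M e5
      have e7 := hh i
      rw [e2, eq_tEmp M e4] at e7
      have e8 := hEmp _ _ e7
      refine ⟨s, ?_, ?_⟩
      · rw [e1] at ha ⊢
        have := (cmp_ssub (T := T'') (T' := T) (DCmp.symm e0) (by
          have e9 : T''.1.card = 1 := e5
          have e10 : T.1.card = 2 := ha
          omega)).1
        exact this hs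
      · rw [e3, e6, e8]
    choose s hs hs' using h3
    have h4 : ∀ i, b (2 * i + 1) = dv M (tSing M (s i)) (h (i + 1)) := by
      intro i
      obtain ⟨g, T, T', T'', -, -, e0, e1, e2, e3⟩ := htri (2 * i + 1)
      have e3' : b (2 * (i + 1)) = dv M T'' g := e3
      have e4 : T'.1.card = 1 := by
        have := c2 i
        rw [e2] at this
        exact this
      have e5 : T''.1.card = 0 := by
        have := c1 (i + 1)
        rw [e3'] at this
        exact this
      obtain ⟨s', -, e6⟩ := eq_tSing M e4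
      have e7 := hh (i + 1)
      rw [e3', eq_tEmp M e5] at e7
      have e8 := hEmp _ _ e7
      have e9 := hs' i
      rw [e2, e6] at e9
      have e10 := tSing_inj M (dv_ty M e9)
      rw [e2, e6, e8, e10]
    have h5 : ∀ i, ∃ e : ℤ, gen M (s i) ^ e = (h i)⁻¹ * h (i + 1) := by
      intro i
      have e1 := (hs' i).symm.trans (h4 i)
      rw [dv_eq] at e1
      exact sgp_single M e1
    choose e he using h5
    have h6 : ∀ i, e i ≠ 0 := by
      intro i h0
      have e1 := he i
      rw [h0, zpow_zero] at e1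
      have e2 := inv_mul_eq_one.1 e1.symm
      have e3 : b (2 * i) = b (2 * (i + 1)) := by rw [hh, hh, e2]
      exact mod_two hn (by ring) (hinj _ _ e3)
    have h7 : ∀ i, s i ≠ s (i + 1) := by
      intro i h0
      have e1 : b (2 * i + 1) = b (2 * (i + 1) + 1) := by rw [h4, hs' (i + 1), h0]
      exact mod_two hn (by ring) (hinj _ _ e1)
    have h8 : ∀ x, x ∈ a.1.1 ↔ x = s 0 ∨ x = s 1 := by
      intro x
      constructor
      · intro hx
        by_contra hc
        push Not at hc
        classical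
        have e3 : ({x, s 0, s 1} : Finset S) ⊆ a.1.1 := by
          intro y hy
          simp only [Finset.mem_insert, Finset.mem_singleton] at hy
          rcases hy with rfl | rfl | rfl
          exacts [hx, hs 0, hs 1]
        have e4 := Finset.card_le_card e3
        rw [ha, Finset.card_eq_three.2 ⟨x, s 0, s 1, hc.1, hc.2, h7 0, rfl⟩] at e4
        omega
      · rintro (rfl | rfl)
        exacts [hs 0, hs 1]
    have h9 : ∀ i, s (2 * i) = s 0 ∧ s (2 * i + 1) = s 1 := by
      intro i
      induction i with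
      | zero => exact ⟨rfl, rfl⟩
      | succ i ih =>
        have e1 : s (2 * (i + 1)) = s 0 := by
          rcases (h8 _).1 (hs (2 * (i + 1))) with e1 | e1
          · exact e1
          · exact absurd (ih.2.trans e1.symm) (h7 (2 * i + 1))
        refine ⟨e1, ?_⟩
        rcases (h8 _).1 (hs (2 * (i + 1) + 1)) with e2 | e2
        · exact absurd (e1.trans e2.symm) (h7 (2 * (i + 1)))
        · exact e2
    have h10 : s k = s 0 := by
      have e1 : b (2 * k + 1) = b 1 := by
        have := hper 1
        rw [hk, add_comm] at this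
        exact this
      have e2 : b 1 = dv M (tSing M (s 0)) (h 0) := hs' 0
      rw [e2, hs' k] at e1
      exact tSing_inj M (dv_ty M e1)
    obtain ⟨j, hj⟩ : ∃ j, k = 2 * j := by
      rcases Nat.even_or_odd' k with ⟨j, hj | hj⟩
      · exact ⟨j, hj⟩
      · exfalso
        rw [hj, (h9 j).2] at h10
        exact h7 0 h10.symm
    have h11 : h (2 * j) = h 0 := by
      have e1 : b (2 * (2 * j)) = b (2 * 0) := by
        rw [← hj, ← hk]
        simpa using hper 0
      rw [hh, hh] at e1
      exact hEmp _ _ e1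
    have h12 : ∀ l, ((List.range l).map fun i => gen M (s 0) ^ e (2 * i) *
        gen M (s 1) ^ e (2 * i + 1)).prod = (h 0)⁻¹ * h (2 * l) := by
      intro l
      induction l with
      | zero => simp
      | succ l ih =>
        have e1 := he (2 * l)
        have e2 := he (2 * l + 1)
        rw [(h9 l).1] at e1
        rw [(h9 l).2] at e2
        rw [List.range_succ, List.map_append, List.prod_append, ih]
        simp only [List.map_cons, List.map_nil, List.prod_cons, List.prod_nil, mul_one]
        rw [e1, e2]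
        have e3 : 2 * (l + 1) = 2 * l + 1 + 1 := by ring
        rw [e3]
        group
    have h13 : M.M (s 0) (s 1) ≤ j := by
      by_contra hc
      push Not at hc
      refine hg (s 0) (s 1) (h7 0) (a.1.2.2 _ (hs 0) _ (hs 1)) j (fun i => e (2 * i))
        (fun i => e (2 * i + 1)) (by omega) hc (fun i _ => ⟨h6 _, h6 _⟩) ?_
      rw [h12, h11]
      simp
    have h14 : ∀ i, corner (dlen M) a (b i) (b (i + 1)) =
        Real.pi / (2 * (M.M (s 0) (s 1) : ℕ)) := by
      intro i
      rw [corner_top M a _ _ ha (h1 i)]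
      unfold al
      rw [lab_pair M (h7 0) h8]
    simp only [h14, Finset.sum_const, Finset.card_range, nsmul_eq_mul]
    have h15 : (2 : ℝ) ≤ (M.M (s 0) (s 1) : ℕ) := by
      exact_mod_cast two_le M (h7 0) (a.1.2.2 _ (hs 0) _ (hs 1))
    have h16 : ((M.M (s 0) (s 1) : ℕ) : ℝ) ≤ j := by exact_mod_cast h13
    have h17 : (n : ℝ) = 4 * j := by
      rw [hk, hj]
      push_cast
      ring
    rw [h17]
    have hpi := Real.pi_pos
    rw [mul_div_assoc', le_div_iff₀ (by positivity)]
    nlinarith

theorem deligne_npc (M : CoxeterMatrix S) (h : TwoDim M) (hg : Girth M) :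
    NPC (deligne M) (dlen M) where
  symm := dlen_symm M
  pos := dlen_pos M
  triangle := dlen_tri M
  link a n b hn hb hinj htri := by
    have h1 : a.1.1.card ≤ 2 := a.1.2.1
    have h2 : a.1.1.card = 0 ∨ a.1.1.card = 1 ∨ a.1.1.card = 2 := by omega
    rcases h2 with h2 | h2 | h2
    · exact link_zero M h a h2 n b hn hb hinj htri
    · exact link_one M a h2 n b hn hb hinj htri
    · exact link_two M hg a h2 n b hn hb hinj htri

end Pool.Agent.helper71.FJ3
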